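import Pool.Agent.helper46.T7.SpecC

set_option autoImplicit false

/-!
# T7 (MP_16912e_nt): row CGT, conductors with a large prime factor (port of helper27/T6L/OGL.lean)
-/

namespace Pool.Agent.T7

open Finset NumberField Pool.Agent.helper3.FT Pool.Agent.helper47.RA Pool.Agent.T5 Pool.Agent.T6
open Pool.Agent.helper26.T5 (nn LEMB LP HCL HGA LYT LAW)
open Pool.Agent.helper28.LT (rad)

/-- Row CGT. -/
theorem CGT : CGT_stmt := by
  classical
  rintro ⟨h, hh⟩ hOSS hUBH hOFD hOAR hCSD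
  obtain ⟨C₁, hC₁, csd⟩ := hCSD hUBH hOFD hOAR
  obtain ⟨C₂, hC₂, -, oss2⟩ := hOSS
  refine ⟨C₁ * C₂, by nlinarith, ?_⟩
  intro N R P hN hR hP F hF
  have hN0 : 0 < N := by linarith
  have hR0 : 0 < R := by linarith
  have hP0 : 0 < P := by linarith
  choose! f D hfund hdis h5 hbig using fun t (ht : t ∈ F) => (hF t ht).2
  have hf1 : ∀ t ∈ F, 1 ≤ f t := by
    intro t ht
    rcases Nat.eq_zero_or_pos (f t) with h0 | h0
    · exfalso
      have d1 := (hF t ht).1.d1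
      rw [hdis t ht, h0] at d1
      push_cast at d1
      norm_num at d1
      linarith
    · exact h0
  set s : Finset ℕ := F.image f with hs
  have hcard : (F.card : ℝ) = ∑ y ∈ s, ((F.filter (fun t => f t = y)).card : ℝ) := by
    rw [Finset.card_eq_sum_card_image f F]
    push_cast
    rfl
  have hfib : ∀ y ∈ s, ((F.filter (fun t => f t = y)).card : ℝ) ≤
      C₁ * R * Pool.Agent.T6L.gw y * N := by
    intro y hy
    obtain ⟨t₀, ht₀, rfl⟩ := Finset.mem_image.1 hy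
    refine csd h hh N R (f t₀) hN hR (hf1 t₀ ht₀) (h5 t₀ ht₀) _ fun t ht => ?_
    obtain ⟨htF, hft⟩ := Finset.mem_filter.1 ht
    refine ⟨(hF t htF).1, D t, hfund t htF, ?_⟩
    rw [hdis t htF, hft]
  have hs2 : ∑ y ∈ s, Pool.Agent.T6L.gw y ≤ C₂ / P := by
    refine oss2 P _ hP fun y hy => ?_
    obtain ⟨t₀, ht₀, rfl⟩ := Finset.mem_image.1 hy
    exact ⟨hf1 t₀ ht₀, hbig t₀ ht₀⟩
  calc (F.card : ℝ) = ∑ y ∈ s, ((F.filter (fun t => f t = y)).card : ℝ) := hcard
    _ ≤ ∑ y ∈ s, C₁ * R * Pool.Agent.T6L.gw y * N := Finset.sum_le_sum hfib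
    _ = C₁ * R * N * ∑ y ∈ s, Pool.Agent.T6L.gw y := by
        rw [Finset.mul_sum]
        exact Finset.sum_congr rfl fun y _ => by ring
    _ ≤ C₁ * R * N * (C₂ / P) := mul_le_mul_of_nonneg_left hs2 (by positivity)
    _ = C₁ * C₂ * R / P * N := by ring

end Pool.Agent.T7
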